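import Pool.Agent.H34.Scv.Bad
import Pool.Agent.H34.Scv.SC
import Pool.Agent.H34.Scv.SF

/-!
# MP_d2274e_an : functions semiconvex and semiconcave with modulus on cone-free convex sets

Which unbounded open convex sets `G` have, for every modulus `ω` as in case (a) (case (b)), a
function that is `ω`-semiconvex and `ω`-semiconcave and not in `C^{1,ω}(G)`: exactly those with
arbitrarily long pieces of bounded thickness. Cases (c), (d) hold for all unbounded cone-free `G`.

`IsModulus`, `Semiconvex`, `Semiconcave`, `IsC1`, `ConeFree` are in `Pool.Agent.H34.Scv.SA`, `Fat` is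
in `Pool.Agent.H34.Scv.Fat` and `Thin` in `Pool.Agent.H34.Scv.Slab`.
-/

namespace Pool.Agent.Results.MP_d2274e_an.ThicknessDichotomy

open Pool.Agent.H34.Scv Set Filter Topology

/-- `n`-dimensional Euclidean space -/
abbrev En (n : ℕ) := EuclideanSpace ℝ (Fin n)

/-- `G` is an unbounded, open, convex, cone-free subset of `ℝⁿ` -/
def Admissible {n : ℕ} (G : Set (En n)) : Prop :=
  IsOpen G ∧ Convex ℝ G ∧ ¬ Bornology.IsBounded G ∧ ConeFree G

/-- there is `f` on `G`, both `ω`-semiconvex and `ω`-semiconcave, with `f ∉ C^{1,ω}(G)` -/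
def HasBad {n : ℕ} (ω : ℝ → ℝ) (G : Set (En n)) : Prop :=
  ∃ f : En n → ℝ, Semiconvex ω G f ∧ Semiconcave ω G f ∧ ¬ IsC1 ω G f

/-- `liminf_{t→0+} ω(t)/t > 0` -/
def LowerAtZero (ω : ℝ → ℝ) : Prop := ∃ c : ℝ, 0 < c ∧ ∀ᶠ t : ℝ in 𝓝[>] 0, c ≤ ω t / t

/-- `liminf_{t→∞} ω(t)/t = 0` (for `ω ≥ 0`) -/
def LowerAtTop (ω : ℝ → ℝ) : Prop := ∀ ε : ℝ, 0 < ε → ∃ᶠ t : ℝ in atTop, ω t / t < ε

/-- a modulus as in case (a) -/
def CaseA (ω : ℝ → ℝ) : Prop := IsModulus ω ∧ LowerAtZero ω ∧ LowerAtTop ω

/-- a modulus as in case (b) -/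
def CaseB (ω : ℝ → ℝ) : Prop := CaseA ω ∧ ConcaveOn ℝ (Ici 0) ω

/-- the slab `|x₀| < 1` -/
def slab (n : ℕ) (i : Fin n) : Set (En n) := {x | |x i| < 1}

lemma slab_coneFree {n : ℕ} (i : Fin n) : ConeFree (slab n i) := by
  rintro ⟨C, a, hcone, -, ⟨c, hc⟩, hsub⟩
  -- an element of `C` with nonzero `i`-th coordinate
  have hex : ∃ w ∈ C, w i ≠ 0 := by
    by_cases h : c i ≠ 0
    · exact ⟨c, interior_subset hc, h⟩
    · push Not at h
      have hcont : ContinuousAt (fun s : ℝ => c + s • EuclideanSpace.single i (1 : ℝ)) 0 := by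
        fun_prop
      have h0 : c + (0 : ℝ) • EuclideanSpace.single i (1 : ℝ) ∈ interior C := by simpa using hc
      have hev := (hcont.eventually (isOpen_interior.mem_nhds h0)).filter_mono
        (nhdsWithin_le_nhds (s := Ioi (0 : ℝ)))
      obtain ⟨s, hs1, hs2⟩ := (hev.and self_mem_nhdsWithin).exists
      have hs0 : (0 : ℝ) < s := hs2
      refine ⟨_, interior_subset hs1, ?_⟩
      simp [h, hs0.ne']
  obtain ⟨w, hw, hwi⟩ := hex
  have hl : 0 < (1 + |a i|) / |w i| := div_pos (by positivity) (abs_pos.mpr hwi)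
  have h1 := hsub ⟨_, hcone w hw _ hl, rfl⟩
  simp only [slab, mem_ofPred_eq, PiLp.add_apply, PiLp.smul_apply, smul_eq_mul] at h1
  have h2 : |(1 + |a i|) / |w i| * w i| = 1 + |a i| := by
    rw [abs_mul, abs_of_pos hl, div_mul_cancel₀ _ (abs_pos.mpr hwi).ne']
  have h3 := abs_sub (a i + (1 + |a i|) / |w i| * w i) (a i)
  rw [add_sub_cancel_left, h2] at h3
  linarith

/-- For every `n ≥ 2`:
* for an unbounded open convex `G ⊆ ℝⁿ` the following are equivalent: every modulus `ω` as in (a)
  has a function on `G` that is `ω`-semiconvex and `ω`-semiconcave and not in `C^{1,ω}(G)`; every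
  (concave) modulus as in (b) has one; `G` is thin, i.e. for some `C` there are arbitrarily long
  pieces of `G` in slabs of half-width `C`; `G` is not fat, i.e. it is false that for every `M` all
  points of `G` are at bounded distance from centres of balls of radius `M` in `G`;
* for an open convex `G` that is not thin there is a concave modulus `ω` with `ω(t) = t` on `[0,1]`
  and `lim_{t→∞} ω(t)/t = 0` for which all these functions are in `C^{1,ω}(G)`;
* (cases (c), (d)) for all `0 < α < 1` every unbounded open convex cone-free `G` has such a function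
  for `ω(t) = t^α`; in particular for `√t`;
* there are unbounded open convex cone-free sets that are thin, and such sets that are not. -/
theorem result (n : ℕ) (hn : 2 ≤ n) :
    (∀ G : Set (En n), IsOpen G → Convex ℝ G → ¬ Bornology.IsBounded G →
      List.TFAE [∀ ω, CaseA ω → HasBad ω G, ∀ ω, CaseB ω → HasBad ω G, Thin G, ¬ Fat G]) ∧
    (∀ G : Set (En n), IsOpen G → Convex ℝ G → ¬ Thin G →
      ∃ ω : ℝ → ℝ, IsModulus ω ∧ ConcaveOn ℝ (Ici 0) ω ∧ (∀ t, 0 ≤ t → t ≤ 1 → ω t = t) ∧
        Tendsto (fun t => ω t / t) atTop (𝓝 0) ∧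
        ∀ f : En n → ℝ, Semiconvex ω G f → Semiconcave ω G f → IsC1 ω G f) ∧
    (∀ (G : Set (En n)) (α : ℝ), Admissible G → 0 < α → α < 1 → HasBad (fun t => t ^ α) G) ∧
    (∀ G : Set (En n), Admissible G → HasBad Real.sqrt G) ∧
    (∃ G : Set (En n), Admissible G ∧ Thin G) ∧ (∃ G : Set (En n), Admissible G ∧ ¬ Thin G) := by
  have hc : ∀ (G : Set (En n)) (α : ℝ), Admissible G → 0 < α → α < 1 →
      HasBad (fun t => t ^ α) G := by
    rintro G α ⟨h1, h2, h3, h4⟩ h5 h6
    exact exists_bad h1 h2 h3 h4 h5 h6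
  have hgood : ∀ G : Set (En n), IsOpen G → Convex ℝ G → ¬ Thin G →
      ∃ ω : ℝ → ℝ, IsModulus ω ∧ ConcaveOn ℝ (Ici 0) ω ∧ (∀ t, 0 ≤ t → t ≤ 1 → ω t = t) ∧
        Tendsto (fun t => ω t / t) atTop (𝓝 0) ∧
        ∀ f : En n → ℝ, Semiconvex ω G f → Semiconcave ω G f → IsC1 ω G f := by
    intro G hG hconv hthin
    apply fat_good hG hconv
    by_contra h
    exact hthin (thin_of_not_fat hG hconv h)
  have htfae : ∀ G : Set (En n), IsOpen G → Convex ℝ G → ¬ Bornology.IsBounded G →
      List.TFAE [∀ ω, CaseA ω → HasBad ω G, ∀ ω, CaseB ω → HasBad ω G, Thin G, ¬ Fat G] := by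
    intro G hG hconv hub
    tfae_have 1 → 2 := fun h ω hω => h ω hω.1
    tfae_have 2 → 3 := by
      intro h
      by_contra hthin
      obtain ⟨ω, h1, h2, h3, h4, h5⟩ := hgood G hG hconv hthin
      obtain ⟨f, hf1, hf2, hf3⟩ := h ω ⟨⟨h1, ⟨1, one_pos, by
        filter_upwards [Ioc_mem_nhdsGT (zero_lt_one (α := ℝ))] with t ht
        rw [h3 t ht.1.le ht.2, div_self ht.1.ne']⟩, fun ε hε =>
          (h4.eventually (gt_mem_nhds hε)).frequently⟩, h2⟩
      exact hf3 (h5 f hf1 hf2)
    tfae_have 3 → 4 := not_fat_of_thin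
    tfae_have 4 → 1 := by
      rintro h ω ⟨h1, h2, h3⟩
      exact thin_bad hG hconv hub (thin_of_not_fat hG hconv h) h1 h2 h3
    tfae_finish
  set i0 : Fin n := ⟨0, by omega⟩
  set i1 : Fin n := ⟨1, by omega⟩
  have hne : i0 ≠ i1 := by
    intro h
    have := congrArg Fin.val h
    simp [i0, i1] at this
  refine ⟨htfae, hgood, hc, ?_, ?_, ?_⟩
  · intro G hG
    have h := hc G (1 / 2) hG (by norm_num) (by norm_num)
    have e : (fun t : ℝ => t ^ (1 / 2 : ℝ)) = Real.sqrt := by
      funext t; rw [Real.sqrt_eq_rpow]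
    rwa [e] at h
  · -- the slab
    refine ⟨slab n i0, ⟨?_, ?_, ?_, slab_coneFree i0⟩, 1, fun T => ⟨0, ?_,
      EuclideanSpace.single i0 (1 : ℝ), by simp, fun y hy _ => ?_⟩⟩
    · unfold slab
      exact isOpen_lt (by fun_prop) (by fun_prop)
    · intro x hx y hy a b ha hb hab
      simp only [slab, mem_ofPred_eq, PiLp.add_apply, PiLp.smul_apply, smul_eq_mul] at *
      rw [abs_lt] at *
      exact convex_Ioo (-1 : ℝ) 1 hx hy ha hb hab
    · intro hb
      rw [isBounded_iff_forall_norm_le] at hb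
      obtain ⟨R, hR⟩ := hb
      have h1 : EuclideanSpace.single i1 (|R| + 1) ∈ slab n i0 := by
        simp [slab, hne]
      have h2 := hR _ h1
      rw [PiLp.norm_single, Real.norm_of_nonneg (by positivity)] at h2
      linarith [le_abs_self R]
    · simp [slab]
    · have : |y i0| < 1 := hy
      rw [sub_zero, EuclideanSpace.inner_single_left]
      simpa using this.le
  · -- the paraboloid
    set e : En n := EuclideanSpace.single i0 (1 : ℝ) with he
    have hen : ‖e‖ = 1 := by rw [he]; simp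
    have hdim : ∃ v : En n, v ≠ 0 ∧ (inner ℝ e v : ℝ) = 0 := by
      refine ⟨EuclideanSpace.single i1 (1 : ℝ), ?_, ?_⟩
      · intro h
        have h2 : ‖(EuclideanSpace.single i1 (1 : ℝ) : En n)‖ = 1 := by simp
        rw [h, norm_zero] at h2
        norm_num at h2
      · rw [he, EuclideanSpace.inner_single_left]
        simp [hne]
    have hub : ¬ Bornology.IsBounded (paraboloid e) := by
      intro hb
      rw [isBounded_iff_forall_norm_le] at hb
      obtain ⟨C, hC⟩ := hb
      set s : ℝ := max 1 (C + 1)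
      have hs1 : 1 ≤ s := le_max_left _ _
      have hs2 : C + 1 ≤ s := le_max_right _ _
      have hm : (s ^ 2) • e ∈ paraboloid e := parab_ball hen hs1 _ (by
        rw [sub_self, norm_zero]; positivity)
      have := hC _ hm
      rw [norm_smul, hen, mul_one, Real.norm_of_nonneg (by positivity)] at this
      nlinarith
    refine ⟨paraboloid e, ⟨parab_open, parab_convex, hub, parab_coneFree hen hdim⟩, ?_⟩
    intro hthin
    have hB : ∀ ω, CaseB ω → HasBad ω (paraboloid e) :=
      ((htfae (paraboloid e) parab_open parab_convex hub).out 2 1).mp hthin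
    have h1 := hB lw
      ⟨⟨lw_modulus, lw_small, fun ε hε => (lw_large.eventually (gt_mem_nhds hε)).frequently⟩,
        lw_concave⟩
    obtain ⟨f, hf1, hf2, hf3⟩ := h1
    exact hf3 (parab_C1 hen lw_modulus (fun c t hc ht => lw_mul hc ht) (fun t ht => lw_sq ht)
      hf1 hf2)

end Pool.Agent.Results.MP_d2274e_an.ThicknessDichotomy
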